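import Pool.Agent.helper4.QS.Spec

/-!
# QS: BOX, the box
-/

open scoped BigOperators ComplexOrder ComplexConjugate Topology

namespace Pool.Agent.QS

open Pool.Agent.helper86.CM Filter

noncomputable section

theorem BOX_mem1 (R : ℕ) (n : Lat 1) : n ∈ box1 R ↔ ‖n‖ ≤ R := by
  unfold box1
  rw [Fintype.mem_piFinset, pi_norm_le_iff_of_nonneg (Nat.cast_nonneg R)]
  refine forall_congr' fun i => ?_
  rw [Finset.mem_Icc, Int.norm_eq_abs, ← abs_le]
  norm_cast

theorem BOX_mem (R : ℕ) (x : PP) : x ∈ box R ↔ ‖x‖ ≤ R := by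
  unfold box
  rw [Finset.mem_product, BOX_mem1, BOX_mem1, Prod.norm_def, max_le_iff]

theorem BOX_card (R : ℕ) : (box R).card = (2 * R + 1) ^ 4 := by
  unfold box box1
  rw [Finset.card_product, Fintype.card_piFinset]
  simp only [Finset.prod_const, Int.card_Icc, Finset.card_univ, Fintype.card_sum, Fintype.card_fin]
  have h1 : ((R : ℤ) + 1 - -(R : ℤ)).toNat = 2 * R + 1 := by omega
  rw [h1]
  ring

/-- the overlap in one factor -/
def BOX_T1 (R : ℕ) (v : Lat 1) : Finset (Lat 1) :=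
  Fintype.piFinset fun i => Finset.Icc (max (-(R : ℤ)) (v i - R)) (min (R : ℤ) (v i + R))

theorem BOX_T1_card (R : ℕ) (v : Lat 1) (m : ℝ) (hv : ‖v‖ ≤ m) (hm : m ≤ 2 * R + 1) :
    (2 * R + 1 - m) ^ 2 ≤ ((BOX_T1 R v).card : ℝ) := by
  unfold BOX_T1
  rw [Fintype.card_piFinset]
  push_cast
  have h2 : (2 * R + 1 - m) ^ 2 = ∏ _i : Fin 1 ⊕ Fin 1, (2 * R + 1 - m) := by
    rw [Finset.prod_const, Finset.card_univ, Fintype.card_sum, Fintype.card_fin]
  rw [h2]
  refine Finset.prod_le_prod (fun i _ => by linarith) fun i _ => ?_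
  rw [Int.card_Icc]
  have h3 : |((v i : ℤ) : ℝ)| ≤ m := by
    have h4 := (norm_le_pi_norm v i).trans hv
    rwa [Int.norm_eq_abs] at h4
  have h5 : (2 * (R : ℤ) + 1 - |v i|) ≤
      (((min (R : ℤ) (v i + R)) + 1 - max (-(R : ℤ)) (v i - R)).toNat : ℤ) := by
    rcases abs_cases (v i) with ⟨h6, h7⟩ | ⟨h6, h7⟩
    · rw [h6]
      omega
    · rw [h6]
      omega
  have h8 : ((2 * (R : ℤ) + 1 - |v i| : ℤ) : ℝ) ≤
      ((((min (R : ℤ) (v i + R)) + 1 - max (-(R : ℤ)) (v i - R)).toNat : ℤ) : ℝ) := by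
    exact_mod_cast h5
  push_cast at h8
  have h9 : 2 * (R : ℝ) + 1 - m ≤ 2 * (R : ℝ) + 1 - |((v i : ℤ) : ℝ)| := by linarith
  refine h9.trans ?_
  refine h8.trans (le_of_eq ?_)
  norm_cast

theorem BOX : BOX_stmt := by
  refine ⟨BOX_mem, BOX_card, fun R u hR => ?_⟩
  have hR0 : (1 : ℝ) ≤ R := by exact_mod_cast hR
  rcases le_or_gt (R : ℝ) (2 * ‖u‖) with h | h
  · have h1 : (1 - 2 * ‖u‖ / R) * ((box R).card : ℝ) ≤ 0 := by
      refine mul_nonpos_of_nonpos_of_nonneg ?_ (Nat.cast_nonneg _)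
      rw [sub_nonpos, le_div_iff₀ (by linarith), one_mul]
      exact h
    exact h1.trans (Nat.cast_nonneg _)
  · set m : ℝ := ‖u‖ with hm
    have hm0 : 0 ≤ m := norm_nonneg u
    have hu1 : ‖u.1‖ ≤ m := norm_fst_le u
    have hu2 : ‖u.2‖ ≤ m := norm_snd_le u
    have hm2 : m ≤ 2 * R + 1 := by linarith
    have hsub : BOX_T1 R u.1 ×ˢ BOX_T1 R u.2 ⊆ (box R).filter fun x => x - u ∈ box R := by
      intro x hx
      rw [Finset.mem_product] at hx
      unfold BOX_T1 at hx
      rw [Fintype.mem_piFinset, Fintype.mem_piFinset] at hx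
      rw [Finset.mem_filter]
      unfold box box1
      rw [Finset.mem_product, Finset.mem_product, Fintype.mem_piFinset, Fintype.mem_piFinset,
        Fintype.mem_piFinset, Fintype.mem_piFinset]
      have h1 : ∀ i, _ := fun i => Finset.mem_Icc.mp (hx.1 i)
      have h2 : ∀ i, _ := fun i => Finset.mem_Icc.mp (hx.2 i)
      refine ⟨⟨fun i => ?_, fun i => ?_⟩, fun i => ?_, fun i => ?_⟩
      · have := h1 i
        rw [Finset.mem_Icc]
        omega
      · have := h2 i
        rw [Finset.mem_Icc]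
        omega
      · have := h1 i
        rw [Finset.mem_Icc, Prod.fst_sub, Pi.sub_apply]
        omega
      · have := h2 i
        rw [Finset.mem_Icc, Prod.snd_sub, Pi.sub_apply]
        omega
    have h3 : ((BOX_T1 R u.1 ×ˢ BOX_T1 R u.2).card : ℝ) ≤
        (((box R).filter fun x => x - u ∈ box R).card : ℝ) := by
      exact_mod_cast Finset.card_le_card hsub
    refine le_trans ?_ h3
    rw [Finset.card_product]
    push_cast
    have h4 : (2 * R + 1 - m) ^ 2 * (2 * R + 1 - m) ^ 2 ≤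
        ((BOX_T1 R u.1).card : ℝ) * ((BOX_T1 R u.2).card : ℝ) :=
      mul_le_mul (BOX_T1_card R u.1 m hu1 hm2) (BOX_T1_card R u.2 m hu2 hm2) (by positivity)
        (Nat.cast_nonneg _)
    refine le_trans ?_ h4
    rw [BOX_card]
    push_cast
    have h5 : (1 + (4 : ℕ) * (-(m / (2 * R + 1)))) ≤ (1 + (-(m / (2 * R + 1)))) ^ 4 := by
      refine one_add_mul_le_pow ?_ 4
      have : m / (2 * R + 1) ≤ 1 := by
        rw [div_le_one (by positivity)]
        exact hm2
      linarith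
    have h6 : 1 - 2 * m / R ≤ 1 + (4 : ℕ) * (-(m / (2 * R + 1))) := by
      have h7 : 4 * (m / (2 * R + 1)) ≤ 2 * m / R := by
        rw [← mul_div_assoc, div_le_div_iff₀ (by positivity) (by linarith)]
        nlinarith
      push_cast
      linarith
    have h8 : (2 * (R : ℝ) + 1 - m) ^ 2 * (2 * R + 1 - m) ^ 2 =
        (1 + (-(m / (2 * R + 1)))) ^ 4 * (2 * R + 1) ^ 4 := by
      have h9 : (2 * (R : ℝ) + 1 - m) = (1 + (-(m / (2 * R + 1)))) * (2 * R + 1) := by
        field_simp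
        ring
      rw [h9]
      ring
    rw [h8]
    exact mul_le_mul_of_nonneg_right (h6.trans h5) (by positivity)

end

end Pool.Agent.QS
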