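import Pool.Agent.helper4.QS.Spec

/-!
# QS: LAC3
-/

open scoped BigOperators ComplexOrder ComplexConjugate Topology

namespace Pool.Agent.QS

open Pool.Agent.helper86.CM Filter

noncomputable section

theorem LAC3_bound (y : ℝ) (hy : 13 ≤ y) (γ : ℕ → ℤ) (J : ℕ) (hγ : ∀ j < J, |γ j| ≤ 3) :
    |∑ j ∈ Finset.range J, (γ j : ℝ) * y ^ j| ≤ y ^ J / 4 - 1 / 4 := by
  induction J with
  | zero => simp
  | succ J ih =>
    rw [Finset.sum_range_succ]
    have h1 := ih fun j hj => hγ j (by omega)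
    have h2 : |(γ J : ℝ)| ≤ 3 := by exact_mod_cast hγ J (by omega)
    have h3 : 0 < y ^ J := by positivity
    have h4 : |(γ J : ℝ) * y ^ J| ≤ 3 * y ^ J := by
      rw [abs_mul, abs_of_pos h3]
      exact mul_le_mul_of_nonneg_right h2 h3.le
    refine (abs_add_le _ _).trans ((add_le_add h1 h4).trans ?_)
    rw [pow_succ]
    nlinarith

theorem LAC3_main (y : ℝ) (hy : 13 ≤ y) (γ : ℕ → ℤ) (J : ℕ) (hγ : ∀ j < J, |γ j| ≤ 3)
    (h0 : ∑ j ∈ Finset.range J, (γ j : ℝ) * y ^ j = 0) : ∀ j < J, γ j = 0 := by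
  induction J with
  | zero => intro j hj; omega
  | succ J ih =>
    have h1 := LAC3_bound y hy γ J fun j hj => hγ j (by omega)
    rw [Finset.sum_range_succ] at h0
    have h3 : 0 < y ^ J := by positivity
    have h4 : |(γ J : ℝ)| * y ^ J ≤ y ^ J / 4 - 1 / 4 := by
      rw [← abs_of_pos h3, ← abs_mul, abs_of_pos h3]
      have h5 : (γ J : ℝ) * y ^ J = -∑ j ∈ Finset.range J, (γ j : ℝ) * y ^ j := by linarith
      rw [h5, abs_neg]
      exact h1
    have h6 : γ J = 0 := by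
      by_contra hne
      have h7 : (1 : ℝ) ≤ |(γ J : ℝ)| := by
        have h8 : (1 : ℤ) ≤ |γ J| := Int.one_le_abs hne
        exact_mod_cast h8
      nlinarith
    intro j hj
    rcases Nat.lt_succ_iff_lt_or_eq.mp hj with h | h
    · refine ih (fun j hj => hγ j (by omega)) ?_ j h
      rw [h6] at h0
      simpa using h0
    · rw [h]
      exact h6

theorem LAC3 : LAC3_stmt := by
  intro x hx s J hs γ hγ h0
  have hy : 13 ≤ x ^ s := by
    have h1 : (37 / 10 : ℝ) ^ 2 ≤ x ^ 2 := by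
      exact pow_le_pow_left₀ (by norm_num) hx 2
    have h2 : x ^ 2 ≤ x ^ s := pow_le_pow_right₀ (by linarith) hs
    refine le_trans ?_ (h1.trans h2)
    norm_num
  refine LAC3_main (x ^ s) hy γ J hγ ?_
  rw [← h0]
  refine Finset.sum_congr rfl fun j _ => ?_
  rw [pow_mul]

end

end Pool.Agent.QS
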