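import Pool.Agent.helper4.QS.Spec

/-!
# QS: PDL, pointwise limits of positive definite functions
-/

open scoped BigOperators ComplexOrder ComplexConjugate Topology

namespace Pool.Agent.QS

open Pool.Agent.helper86.CM Filter

noncomputable section

theorem PDL_posSemidef {m : ℕ} (M : ℕ → Matrix (Fin m) (Fin m) ℂ) (M0 : Matrix (Fin m) (Fin m) ℂ)
    (hM : ∀ j, (M j).PosSemidef) (hlim : ∀ a b, Tendsto (fun j => M j a b) atTop (𝓝 (M0 a b))) :
    M0.PosSemidef := by
  rw [Matrix.posSemidef_iff_dotProduct_mulVec]
  constructor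
  · ext a b
    rw [Matrix.conjTranspose_apply]
    have h1 : Tendsto (fun j => star (M j b a)) atTop (𝓝 (star (M0 b a))) := (hlim b a).star
    have h2 : ∀ j, star (M j b a) = M j a b := fun j => (hM j).isHermitian.apply a b
    simp only [h2] at h1
    exact tendsto_nhds_unique h1 (hlim a b)
  · intro x
    have h1 : Tendsto (fun j => star x ⬝ᵥ (M j).mulVec x) atTop (𝓝 (star x ⬝ᵥ M0.mulVec x)) := by
      simp only [dotProduct, Matrix.mulVec]
      refine tendsto_finsetSum _ fun a _ => Tendsto.const_mul _ ?_
      exact tendsto_finsetSum _ fun b _ => (hlim a b).mul_const _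
    exact ge_of_tendsto' h1 fun j => (hM j).dotProduct_mulVec_nonneg x

theorem PDL : PDL_stmt := by
  intro Γ _ hj h Ej E hh hE hPD m x
  refine PDL_posSemidef (fun k => Matrix.of fun i j : Fin m =>
    ee (-(hj k (x i) (x j))) * Ej k (x j - x i)) _ (fun k => hPD k m x) fun a b => ?_
  simp only [Matrix.of_apply]
  refine Tendsto.mul ?_ (hE _)
  have hc : Continuous ee := by
    unfold ee
    fun_prop
  exact (hc.tendsto _).comp (hh (x a) (x b)).neg

end

end Pool.Agent.QS
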